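import Pool.Agent.Q151.Ord3.Main

/-!
# `MP_b7123c_al`: linearly orderable soluble groups of derived length 3

There is no linearly orderable soluble group of derived length exactly `3` with exactly one proper
normal relatively convex subgroup.
-/

universe u

namespace Pool.Agent.Results.MP_b7123c_al.NoLengthThree

/-- `le` is a total order on `G` invariant under multiplication on both sides. -/
structure IsBiOrder {G : Type u} [Group G] (le : G → G → Prop) : Prop where
  refl : ∀ a, le a a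
  trans : ∀ a b c, le a b → le b c → le a c
  antisymm : ∀ a b, le a b → le b a → a = b
  total : ∀ a b, le a b ∨ le b a
  mul_left : ∀ a b c, le a b → le (c * a) (c * b)
  mul_right : ∀ a b c, le a b → le (a * c) (b * c)

/-- `G` is linearly orderable. -/
def LinearlyOrderable (G : Type u) [Group G] : Prop :=
  ∃ le : G → G → Prop, IsBiOrder le

/-- the subgroup `H` is convex for the order `le`. -/
def IsConvex {G : Type u} [Group G] (le : G → G → Prop) (H : Subgroup G) : Prop :=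
  ∀ h₁ ∈ H, ∀ h₂ ∈ H, ∀ g, le h₁ g → le g h₂ → g ∈ H

/-- `H` is relatively convex: convex for at least one two-sided invariant total order on `G`. -/
def RelativelyConvex {G : Type u} [Group G] (H : Subgroup G) : Prop :=
  ∃ le : G → G → Prop, IsBiOrder le ∧ IsConvex le H

/-- the derived length of `G` is exactly `d`. -/
def DerivedLengthIs (G : Type u) [Group G] (d : ℕ) : Prop :=
  derivedSeries G d = ⊥ ∧ ∀ i < d, derivedSeries G i ≠ ⊥

open Q151.Ord3

/-- the cone of a two-sided order -/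
theorem cone_of_order {G : Type u} [Group G] {le : G → G → Prop} (h : IsBiOrder le) :
    PC {g : G | le 1 g} ⊥ := by
  refine ⟨?_, ?_, ?_, ?_⟩
  · intro x hx y hy
    have h1 := h.mul_right _ _ y hx
    rw [one_mul] at h1
    exact h.trans _ _ _ hy h1
  · intro g x hx
    have h1 := h.mul_right _ _ g⁻¹ (h.mul_left _ _ g hx)
    rw [mul_one, mul_inv_cancel] at h1
    exact h1
  · intro x
    rcases h.total 1 x with h1 | h1
    · exact Or.inl h1
    · right
      have h2 := h.mul_left _ _ x⁻¹ h1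
      rw [mul_one, inv_mul_cancel] at h2
      exact h2
  · intro x
    rw [Subgroup.mem_bot]
    constructor
    · rintro ⟨h1, h2⟩
      have h3 := h.mul_left _ _ x h2
      rw [mul_one, mul_inv_cancel] at h3
      exact h.antisymm _ _ h3 h1
    · rintro rfl
      exact ⟨h.refl 1, by simpa using h.refl (1 : G)⟩

/-- the cone of the quotient by a normal convex subgroup -/
theorem cone_of_convex {G : Type u} [Group G] {le : G → G → Prop} (h : IsBiOrder le)
    {N : Subgroup G} (hn : N.Normal) (hc : IsConvex le N) : PC {g : G | le 1 g ∨ g ∈ N} N := by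
  have h0 := cone_of_order h
  have hinv : ∀ x : G, le x 1 → le 1 x⁻¹ := by
    intro x h1
    have h2 := h.mul_left _ _ x⁻¹ h1
    rwa [mul_one, inv_mul_cancel] at h2
  refine ⟨?_, ?_, ?_, ?_⟩
  · rintro x (hx | hx) y (hy | hy)
    · exact Or.inl (h0.mul x hx y hy)
    · rcases h.total 1 (x * y) with h1 | h1
      · exact Or.inl h1
      · right
        have h2 := h.mul_right _ _ y⁻¹ h1
        rw [one_mul, mul_inv_cancel_right] at h2
        exact N.mul_mem (hc 1 N.one_mem _ (N.inv_mem hy) x hx h2) hy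
    · rcases h.total 1 (x * y) with h1 | h1
      · exact Or.inl h1
      · right
        have h2 := h.mul_left _ _ x⁻¹ h1
        rw [mul_one, inv_mul_cancel_left] at h2
        exact N.mul_mem hx (hc 1 N.one_mem _ (N.inv_mem hx) y hy h2)
    · exact Or.inr (N.mul_mem hx hy)
  · rintro g x (hx | hx)
    · exact Or.inl (h0.conj g x hx)
    · exact Or.inr (hn.conj_mem x hx g)
  · intro x
    rcases h0.total x with h1 | h1
    · exact Or.inl (Or.inl h1)
    · exact Or.inr (Or.inl h1)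
  · intro x
    constructor
    · rintro ⟨h1 | h1, h2 | h2⟩
      · have h3 := (h0.ker x).1 ⟨h1, h2⟩
        rw [Subgroup.mem_bot] at h3
        rw [h3]; exact N.one_mem
      · simpa using N.inv_mem h2
      · exact h1
      · exact h1
    · intro hx
      exact ⟨Or.inr hx, Or.inr (N.inv_mem hx)⟩

/-- the kernel of an invariant preorder cone on an orderable group is relatively convex -/
theorem relConvex_of_cone {G : Type u} [Group G] {le : G → G → Prop} (h : IsBiOrder le)
    {P : Set G} {C : Subgroup G} (hP : PC P C) : RelativelyConvex C := by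
  have hCn := hP.normal
  have h0 := cone_of_order h
  have hstr : ∀ x ∈ P, x ∉ C → ∀ y ∈ P, x * y ∈ P ∧ x * y ∉ C := by
    intro x hx hxN y hy
    refine ⟨hP.mul _ hx _ hy, fun hxy => hxN ?_⟩
    refine (hP.ker x).1 ⟨hx, ?_⟩
    have := hP.mul _ hy _ (hP.sub _ (C.inv_mem hxy))
    have e : y * (x * y)⁻¹ = x⁻¹ := by group
    rwa [e] at this
  have hstr' : ∀ x ∈ P, x ∉ C → ∀ y ∈ P, y * x ∈ P ∧ y * x ∉ C := by
    intro x hx hxN y hy
    refine ⟨hP.mul _ hy _ hx, fun hxy => hxN ?_⟩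
    refine (hP.ker x).1 ⟨hx, ?_⟩
    have := hP.mul _ (hP.sub _ (C.inv_mem hxy)) _ hy
    have e : (y * x)⁻¹ * y = x⁻¹ := by group
    rwa [e] at this
  let Q : Set G := {x | (x ∈ P ∧ x ∉ C) ∨ (x ∈ C ∧ le 1 x)}
  have Qmul : ∀ x ∈ Q, ∀ y ∈ Q, x * y ∈ Q := by
    rintro x (⟨hx, hxC⟩ | ⟨hx, hx1⟩) y (⟨hy, hyC⟩ | ⟨hy, hy1⟩)
    · exact Or.inl (hstr x hx hxC y hy)
    · exact Or.inl (hstr x hx hxC y (hP.sub _ hy))
    · exact Or.inl (hstr' y hy hyC x (hP.sub _ hx))
    · exact Or.inr ⟨C.mul_mem hx hy, h0.mul x hx1 y hy1⟩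
  have Qconj : ∀ g, ∀ x ∈ Q, g * x * g⁻¹ ∈ Q := by
    rintro g x (⟨hx, hxC⟩ | ⟨hx, hx1⟩)
    · refine Or.inl ⟨hP.conj _ _ hx, fun hh => hxC ?_⟩
      have := hCn.conj_mem _ hh g⁻¹
      have e : g⁻¹ * (g * x * g⁻¹) * g⁻¹⁻¹ = x := by group
      rwa [e] at this
    · exact Or.inr ⟨hCn.conj_mem _ hx g, h0.conj g x hx1⟩
  have Qtot : ∀ x, x ∈ Q ∨ x⁻¹ ∈ Q := by
    intro x
    by_cases hxC : x ∈ C
    · rcases h0.total x with h1 | h1
      · exact Or.inl (Or.inr ⟨hxC, h1⟩)
      · exact Or.inr (Or.inr ⟨C.inv_mem hxC, h1⟩)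
    · have hxC' : x⁻¹ ∉ C := fun hh => hxC (by simpa using C.inv_mem hh)
      rcases hP.total x with h1 | h1
      · exact Or.inl (Or.inl ⟨h1, hxC⟩)
      · exact Or.inr (Or.inl ⟨h1, hxC'⟩)
  have Qanti : ∀ x, x ∈ Q → x⁻¹ ∈ Q → x = 1 := by
    rintro x (⟨hx, hxC⟩ | ⟨hx, hx1⟩) (⟨hy, hyC⟩ | ⟨hy, hy1⟩)
    · exact absurd ((hP.ker x).1 ⟨hx, hy⟩) hxC
    · exact absurd (by simpa using C.inv_mem hy) hxC
    · exact absurd (C.inv_mem hx) hyC
    · have := (h0.ker x).1 ⟨hx1, hy1⟩
      rwa [Subgroup.mem_bot] at this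
  refine ⟨fun a b => a⁻¹ * b ∈ Q, ⟨?_, ?_, ?_, ?_, ?_, ?_⟩, ?_⟩
  · intro a
    rw [inv_mul_cancel]
    exact Or.inr ⟨C.one_mem, h.refl 1⟩
  · intro a b c hab hbc
    have := Qmul _ hab _ hbc
    have e : a⁻¹ * b * (b⁻¹ * c) = a⁻¹ * c := by group
    rwa [e] at this
  · intro a b hab hba
    have e : (a⁻¹ * b)⁻¹ = b⁻¹ * a := by group
    rw [← e] at hba
    have := Qanti _ hab hba
    rwa [inv_mul_eq_one] at this
  · intro a b
    rcases Qtot (a⁻¹ * b) with h1 | h1
    · exact Or.inl h1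
    · right
      have e : (a⁻¹ * b)⁻¹ = b⁻¹ * a := by group
      rwa [e] at h1
  · intro a b c hab
    have e : (c * a)⁻¹ * (c * b) = a⁻¹ * b := by group
    rw [e]; exact hab
  · intro a b c hab
    have e : (a * c)⁻¹ * (b * c) = c⁻¹ * (a⁻¹ * b) * c⁻¹⁻¹ := by group
    rw [e]; exact Qconj _ _ hab
  · intro h₁ hh₁ h₂ hh₂ g h1 h2
    by_contra hg
    have hg1 : h₁⁻¹ * g ∉ C := fun hh => hg (by
      have := C.mul_mem hh₁ hh
      rwa [mul_inv_cancel_left] at this)
    have hg2 : g⁻¹ * h₂ ∉ C := fun hh => hg (by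
      have := C.mul_mem hh₂ (C.inv_mem hh)
      have e : h₂ * (g⁻¹ * h₂)⁻¹ = g := by group
      rwa [e] at this)
    have h3 : h₁⁻¹ * g ∈ P := by
      rcases h1 with h1 | h1
      · exact h1.1
      · exact absurd h1.1 hg1
    have h4 : g⁻¹ * h₂ ∈ P := by
      rcases h2 with h2 | h2
      · exact h2.1
      · exact absurd h2.1 hg2
    have h5 := (hstr _ h3 hg1 _ h4).2
    have e : h₁⁻¹ * g * (g⁻¹ * h₂) = h₁⁻¹ * h₂ := by group
    rw [e] at h5
    exact h5 (C.mul_mem (C.inv_mem hh₁) hh₂)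

/-- **Theorem.** No soluble linearly orderable group of derived length exactly `3` has exactly one
proper normal relatively convex subgroup. -/
theorem result : ¬ ∃ (G : Type u) (_ : Group G), DerivedLengthIs G 3 ∧ LinearlyOrderable G ∧
    ∃! N : Subgroup G, N.Normal ∧ N ≠ ⊥ ∧ N ≠ ⊤ ∧ RelativelyConvex N := by
  rintro ⟨G, _, ⟨h3, hne⟩, ⟨le0, hle0⟩, N, ⟨hNn, hNb, hNt, le1, hle1, hNc⟩, hNu⟩
  have h0 := cone_of_order hle0
  have hN := cone_of_convex hle1 hNn hNc
  have huniq : ∀ (P : Set G) (C : Subgroup G), PC P C → C = ⊥ ∨ C = N ∨ C = ⊤ := by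
    intro P C hPC
    by_cases hb : C = ⊥
    · exact Or.inl hb
    by_cases ht : C = ⊤
    · exact Or.inr (Or.inr ht)
    exact Or.inr (Or.inl (hNu C ⟨hPC.normal, hb, ht, relConvex_of_cone hle0 hPC⟩))
  have hcomm := main h0 hN hNb hNt huniq h3
  apply hne 2 (by norm_num)
  rw [derivedSeries_succ, derivedSeries_one, Subgroup.commutator_eq_bot_iff_le_centralizer]
  intro x hx
  rw [Subgroup.mem_centralizer_iff]
  intro y hy
  exact hcomm y hy x hx

end Pool.Agent.Results.MP_b7123c_al.NoLengthThree
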